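import Pool.Agent.H.MP_bf2f06_lc.Ex

open Finset Filter Topology Pool.Agent.H.MP_bf2f06_lc

namespace Pool.Agent.Results.MP_01a55a_lc.No

/-- Least number of edges of a spanning multigraph using each edge of `G` at most twice in which
every cut has at least two edges; `μ a b` is the multiplicity of the edge `ab`. -/
noncomputable def c2 {V : Type} [Fintype V] [DecidableEq V] (G : SimpleGraph V) : ℕ :=
  sInf {t | ∃ μ : V → V → ℕ, (∀ a b, μ a b = μ b a) ∧ (∀ a b, μ a b ≤ 2) ∧
    (∀ a b, ¬ G.Adj a b → μ a b = 0) ∧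
    (∀ S : Finset V, S.Nonempty → S ≠ univ → 2 ≤ ∑ a ∈ S, ∑ b ∈ Sᶜ, μ a b) ∧
    2 * t = ∑ a, ∑ b, μ a b}

lemma c2_ge : 10 ≤ c2 G9 := by
  refine le_csInf ⟨12, fun a b => if G9.Adj a b then 1 else 0, by decide +kernel,
    by decide +kernel, by decide +kernel, by decide +kernel, by decide +kernel⟩ ?_
  rintro t ⟨μ, hs, -, h0, hc, ht⟩
  have e : ∀ a b, μ a b = if G9.Adj a b then μ a b else 0 := fun a b => by
    split_ifs with h
    · rfl
    · exact h0 a b h
  have hc' : ∀ S : Finset (Fin 9), S.Nonempty → S ≠ univ →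
      2 ≤ ∑ a, ∑ b, if a ∈ S ∧ b ∉ S ∧ G9.Adj a b then μ a b else 0 := by
    intro S h1 h2
    refine (hc S h1 h2).trans (le_of_eq ?_)
    rw [← sum_ite_mem_eq]
    refine sum_congr rfl fun a _ => ?_
    split_ifs with ha
    · rw [← sum_ite_mem_eq]
      refine sum_congr rfl fun b _ => ?_
      by_cases hb : b ∈ S <;> simp [ha, hb, ← e]
    · simp [ha]
  rw [sum_congr rfl fun a _ => sum_congr rfl fun b _ => e a b] at ht
  have a0 := hc' {0} (by decide) (by decide)
  have a1 := hc' {1} (by decide) (by decide)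
  have a2 := hc' {2} (by decide) (by decide)
  have a3 := hc' {3} (by decide) (by decide)
  have a4 := hc' {4} (by decide) (by decide)
  have a5 := hc' {5} (by decide) (by decide)
  have a6 := hc' {6} (by decide) (by decide)
  have a7 := hc' {7} (by decide) (by decide)
  have a8 := hc' {8} (by decide) (by decide)
  have b0 := hc' {0, 6} (by decide) (by decide)
  have b1 := hc' {1, 7} (by decide) (by decide)
  have b2 := hc' {2, 8} (by decide) (by decide)
  have b3 := hc' {3, 6} (by decide) (by decide)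
  have b4 := hc' {4, 7} (by decide) (by decide)
  have b5 := hc' {5, 8} (by decide) (by decide)
  simp +decide only [Fin.sum_univ_succ, Fin.sum_univ_zero, if_true, if_false, zero_add, add_zero,
    Fin.reduceSucc, Fin.isValue] at ht a0 a1 a2 a3 a4 a5 a6 a7 a8 b0 b1 b2 b3 b4 b5
  have := hs 0 1
  have := hs 0 2
  have := hs 1 2
  have := hs 3 4
  have := hs 3 5
  have := hs 4 5
  have := hs 0 6
  have := hs 1 7
  have := hs 2 8
  have := hs 3 6
  have := hs 4 7
  have := hs 5 8
  omega

theorem result : ∃ (G : SimpleGraph (Fin 9)) (L : ℝ), G.Connected ∧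
    Tendsto (fun n : ℕ => (cost G n : ℝ) / n) atTop (𝓝 L) ∧
      Tendsto (fun n : ℕ => (costAll G n : ℝ) / n) atTop (𝓝 L) ∧ L < (c2 G : ℝ) / 2 := by
  refine ⟨G9, 9 / 2, G9_conn, G9_lim.1, G9_lim.2, ?_⟩
  have : ((10 : ℕ) : ℝ) ≤ c2 G9 := by exact_mod_cast c2_ge
  push_cast at this
  linarith

end Pool.Agent.Results.MP_01a55a_lc.No
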